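import Pool.Agent.U228.VH.Defs

/-!
# Families of surfaces with nodes, and categories: definitions

The families of surfaces and of categories are those of `Pool/Agent/U228/VH/Defs.lean` (`Fam`).
-/

set_option autoImplicit false
set_option linter.unusedSectionVars false

open Finset Module Matrix

namespace Pool.Agent.U228.VR

open Pool.Agent.W544.PG Pool.Agent.TH164.HC Pool.Agent.U228.KP Pool.Agent.U228.VH

noncomputable section

variable {n r s v m : ℕ} {B : Type}

/-- The reflection which maps the `p`-th vector of an orthogonal basis to its negative and fixes the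
other ones. -/
def refl (p : Fin n) : Matrix (Fin n) (Fin n) ℚ := diagonal fun q => if q = p then -1 else 1

/-- The basis of the transcendental part `T = T_1 + ... + T_r` of the cohomology of the surfaces is
orthogonal. For each `i` there is a vector of the basis (the vanishing cycle) in `T_i` such that the
reflection in it (which is the identity on the other `T_j`), together with the identity of
`K_0^top(𝒞)`, is in the monodromy: for example for a loop around a point of the parameter space at which
the surface `S_i` gets an ordinary double point, and the other surfaces and `𝒞` stay smooth. -/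
structure HasNodes (F : Fam n r s v B) : Prop where
  orth : ∀ p q, p ≠ q → F.Q p q = 0
  node : ∀ i, ∃ p, F.c p = i ∧ (refl p, 1) ∈ F.mon

/-- A family with nodes, and with the largest possible Hodge group of `T` at the point `b₀`. -/
structure Nodal (F : Fam n r s v B) (b₀ : B) : Prop extends HasNodes F where
  full : ∃ k, Full (F.T b₀) F.c k

variable (F : Fam n r s v B)

/-- `t` is a global section of the local system
`H(S_(a 1)) ⊗ ... ⊗ H(S_(a m)) ⊗ K_0^top(𝒞) ⊗ ℚ`, and it is a Hodge class at all points. -/
structure IsGlobal (a : Fin m → Fin r) (t : (Fin m → Fin s ⊕ Fin n) → Fin v → ℚ) : Prop where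
  surf : ∀ J e, t J e ≠ 0 → ∀ j, Sum.elim F.d F.c (J j) = a j
  glob : ∀ g ∈ F.mon, ∀ J, g.2 *ᵥ (fun e => pull (ext1 s g.1) (fun K => t K e) J) = t J
  hodge : ∀ b, IsHodgeZ (F.T b) (F.V b) t

variable {F}

/-- **The variational Hodge conjecture** for `D(S_(a 1) × ... × S_(a m)) ⊠ 𝒞`. -/
def Variational (𝒜 : Classes F) (a : Fin m → Fin r) : Prop :=
  ∀ t, IsGlobal F a t → ∀ b, t ∈ 𝒜.X a b → ∀ b', t ∈ 𝒜.X a b'

end

end Pool.Agent.U228.VR
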