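import Pool.Agent.U228.VR.Multi
import Pool.Agent.U228.VH.Main
import Pool.Agent.W318.PG.HC2

/-!
# Classes on products of surfaces which are invariant under orthogonal groups
-/

set_option autoImplicit false
set_option linter.unusedSectionVars false

open Finset Module Matrix

namespace Pool.Agent.U228.VR

open Pool.Agent.W544.PG Pool.Agent.TH164.HC Pool.Agent.TH125.Nod Pool.Agent.U228.LF
open Pool.Agent.W318.PG Pool.Agent.W74.PG Pool.Agent.W565.K3.Ext

noncomputable section

variable {n r k s m : ℕ}

theorem prod_pairs {N : ℕ} (e : Fin N × Fin 2 ≃ Fin k) (Φ : Fin k → ℚ) (σ : Fin k → Fin k)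
    (hσ : ∀ l, σ (e (l, 0)) = e (l, 1)) (hσ' : ∀ l, σ (e (l, 1)) = e (l, 0))
    (hΦ : ∀ j, Φ (σ j) = Φ j) :
    ∏ l, Φ (e (l, 0)) = ∏ j with j < σ j, Φ j := by
  have hne : ∀ l, e (l, 0) ≠ e (l, 1) := fun l h => by
    have := e.injective h
    simp at this
  symm
  refine Finset.prod_bij' (fun j _ => (e.symm j).1)
    (fun l _ => if e (l, 0) < e (l, 1) then e (l, 0) else e (l, 1)) ?_ ?_ ?_ ?_ ?_
  · intro j _
    exact Finset.mem_univ _
  · intro l _
    rw [Finset.mem_filter]
    refine ⟨Finset.mem_univ _, ?_⟩
    split_ifs with h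
    · rw [hσ]; exact h
    · rw [hσ']
      exact lt_of_le_of_ne (not_lt.1 h) (Ne.symm (hne l))
  · intro j hj
    rw [Finset.mem_filter] at hj
    obtain ⟨⟨l, b⟩, rfl⟩ := e.surjective j
    simp only [Equiv.symm_apply_apply]
    fin_cases b
    · have h1 : e (l, 0) < e (l, 1) := by
        have := hj.2
        simp only [Fin.zero_eta] at this
        rwa [hσ] at this
      simp only [Fin.zero_eta]
      rw [if_pos h1]
    · have h1 : e (l, 1) < e (l, 0) := by
        have := hj.2
        simp only [Fin.mk_one] at this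
        rwa [hσ'] at this
      simp only [Fin.mk_one]
      rw [if_neg (not_lt.2 h1.le)]
  · intro l _
    split_ifs <;> simp
  · intro j _
    obtain ⟨⟨l, b⟩, rfl⟩ := e.surjective j
    simp only [Equiv.symm_apply_apply]
    fin_cases b
    · rfl
    · have h1 := hΦ (e (l, 0))
      rw [hσ] at h1
      exact h1

/-- The generators are products of pairings. -/
theorem gen_pairs (T : HS n) (c : Fin n → Fin r) (hQ : BD c T.Q) (χ : Fin k → Fin r)
    {f : (Fin k → Fin n) → ℚ} (hf : f ∈ Gen (K := ℚ) c T.Q χ) : f ∈ T.pairs2 c k := by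
  unfold Gen at hf
  induction hf using Submodule.span_induction with
  | mem g hg =>
    obtain ⟨N, e, w, rfl⟩ := hg
    have hsym : ∀ a b, T.Q a b = T.Q b a := fun a b => by
      have := congrFun (congrFun T.symm b) a
      rw [Matrix.transpose_apply] at this
      exact this
    by_cases hχ : ∀ l, χ (e (l, 0)) = χ (e (l, 1))
    swap
    · push Not at hχ
      obtain ⟨l, hl⟩ := hχ
      have h0 : gen (K := ℚ) c T.Q χ e w = 0 := by
        funext J
        unfold gen
        split_ifs with hJ
        · rw [Finset.prod_eq_zero (Finset.mem_univ l), zero_smul]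
          · rfl
          · apply hQ
            rw [hJ, hJ]
            exact hl
        · rfl
      rw [h0]
      exact Submodule.zero_mem _
    · set σ : Fin k → Fin k := fun j => e ((e.symm j).1, Equiv.swap 0 1 (e.symm j).2) with hσ
      have h0 : ∀ l, σ (e (l, 0)) = e (l, 1) := fun l => by simp [hσ]
      have h1 : ∀ l, σ (e (l, 1)) = e (l, 0) := fun l => by simp [hσ]
      have hσσ : ∀ j, σ (σ j) = j := fun j => by
        obtain ⟨⟨l, b⟩, rfl⟩ := e.surjective j
        fin_cases b
        · exact (congrArg σ (h0 l)).trans (h1 l)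
        · exact (congrArg σ (h1 l)).trans (h0 l)
      have hσn : ∀ j, σ j ≠ j := fun j h => by
        obtain ⟨⟨l, b⟩, rfl⟩ := e.surjective j
        fin_cases b
        · have h2 := (h0 l).symm.trans h
          have := e.injective h2
          simp at this
        · have h2 := (h1 l).symm.trans h
          have := e.injective h2
          simp at this
      have hχσ : ∀ j, χ (σ j) = χ j := fun j => by
        obtain ⟨⟨l, b⟩, rfl⟩ := e.surjective j
        fin_cases b
        · exact (congrArg χ (h0 l)).trans (hχ l).symm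
        · exact (congrArg χ (h1 l)).trans (hχ l)
      have hg : gen (K := ℚ) c T.Q χ e w = w • fun J : Fin k → Fin n =>
          ∏ j with j < σ j, if c (J j) = χ j then T.Q (J j) (J (σ j)) else 0 := by
        funext J
        unfold gen
        rw [Pi.smul_apply]
        split_ifs with hJ
        · rw [smul_eq_mul, smul_eq_mul, mul_comm]
          congr 1
          have h2 := prod_pairs e (fun j => T.Q (J j) (J (σ j))) σ h0 h1
            (fun j => by rw [hσσ, hsym])
          have h3 : ∏ l, T.Q (J (e (l, 0))) (J (e (l, 1))) =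
              ∏ l, T.Q (J (e (l, 0))) (J (σ (e (l, 0)))) := by
            refine Finset.prod_congr rfl fun l _ => ?_
            rw [h0]
          rw [h3, h2]
          exact Finset.prod_congr rfl fun j _ => by rw [if_pos (hJ j)]
        · push Not at hJ
          obtain ⟨j, hj⟩ := hJ
          symm
          suffices h5 : (∏ j with j < σ j, if c (J j) = χ j then T.Q (J j) (J (σ j)) else 0) = 0 by
            rw [h5]
            exact smul_zero w
          rcases lt_or_gt_of_ne (hσn j) with h2 | h2
          · refine Finset.prod_eq_zero (i := σ j) ?_ ?_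
            · rw [Finset.mem_filter, hσσ]
              exact ⟨Finset.mem_univ _, h2⟩
            · split_ifs with h3
              · rw [hσσ]
                apply hQ
                rw [h3, hχσ]
                exact fun h => hj h.symm
              · rfl
          · refine Finset.prod_eq_zero (i := j) ?_ ?_
            · rw [Finset.mem_filter]
              exact ⟨Finset.mem_univ _, h2⟩
            · rw [if_neg hj]
      rw [hg]
      exact Submodule.smul_mem _ _ (Submodule.subset_span ⟨σ, χ, hσσ, hσn, fun J => rfl⟩)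
  | zero => exact Submodule.zero_mem _
  | add x y _ _ hx hy => exact Submodule.add_mem _ hx hy
  | smul a x _ hx => exact Submodule.smul_mem _ _ hx

/-- Invariance under the orthogonal Lie algebras. -/
theorem kil_inv (T : HS n) (c : Fin n → Fin r) (hQ : BD c T.Q) {t : (Fin k → Fin n) → ℚ}
    (ht : ∀ Z : Matrix (Fin n) (Fin n) ℂ, Zᵀ * mC T.Q + mC T.Q * Z = 0 → BD c Z → Kil Z t) :
    Inv c T.Q (fun _ => ((1 : ℤ) : ℚ)) t := by
  intro u v huv J
  have hsym : ∀ a b, T.Q a b = T.Q b a := fun a b => by
    have := congrFun (congrFun T.symm b) a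
    rw [Matrix.transpose_apply] at this
    exact this
  let Z : Matrix (Fin n) (Fin n) ℂ := Matrix.of fun l x =>
    (if l = u then (T.Q v x : ℂ) else 0) - (if l = v then (T.Q u x : ℂ) else 0)
  have hZa : ∀ l x, Z l x = (if l = u then (T.Q v x : ℂ) else 0) -
    (if l = v then (T.Q u x : ℂ) else 0) := fun _ _ => rfl
  have h1 : Zᵀ * mC T.Q + mC T.Q * Z = 0 := by
    ext x z
    rw [Matrix.add_apply, Matrix.mul_apply, Matrix.mul_apply, Matrix.zero_apply]
    simp only [Matrix.transpose_apply, hZa, mC, Matrix.map_apply, sub_mul, mul_sub, ite_mul,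
      mul_ite, zero_mul, mul_zero, Finset.sum_sub_distrib, Finset.sum_ite_eq',
      Finset.mem_univ, if_true]
    rw [hsym x u, hsym x v]
    ring
  have h2 : BD c Z := by
    intro l x hlx
    rw [hZa]
    have e1 : (if l = u then (T.Q v x : ℂ) else 0) = 0 := by
      split_ifs with h
      · rw [hQ v x, Rat.cast_zero]
        rw [← huv, ← h]
        exact hlx
      · rfl
    have e2 : (if l = v then (T.Q u x : ℂ) else 0) = 0 := by
      split_ifs with h
      · rw [hQ u x, Rat.cast_zero]
        rw [huv, ← h]
        exact hlx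
      · rfl
    rw [e1, e2, sub_zero]
  have h3 := ht Z h1 h2 J
  simp only [hZa, sub_mul, ite_mul, zero_mul, Finset.sum_sub_distrib, Finset.sum_ite_eq',
    Finset.mem_univ, if_true] at h3
  simp only [smul_eq_mul, Int.cast_one, one_mul, Finset.sum_sub_distrib]
  exact_mod_cast h3

/-- the part of a form with the pattern `χ` -/
def patt (c : Fin n → Fin r) (t : (Fin k → Fin n) → ℚ) (χ : Fin k → Fin r) : (Fin k → Fin n) → ℚ :=
  fun J => if (fun j => c (J j)) = χ then t J else 0

theorem patt_sum (c : Fin n → Fin r) (t : (Fin k → Fin n) → ℚ) : t = ∑ χ, patt c t χ := by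
  funext J
  rw [Finset.sum_apply]
  unfold patt
  rw [Finset.sum_ite_eq, if_pos (Finset.mem_univ _)]

theorem patt_inv (T : HS n) (c : Fin n → Fin r) (hQ : BD c T.Q) {t : (Fin k → Fin n) → ℚ}
    (ht : Inv c T.Q (fun _ => ((1 : ℤ) : ℚ)) t) (χ : Fin k → Fin r) :
    Inv c T.Q (fun _ => ((1 : ℤ) : ℚ)) (patt c t χ) := by
  intro u v huv J
  have h1 : ∀ (w w' : Fin n) (j : Fin k), c w = c w' →
      T.Q w (J j) • patt c t χ (Function.update J j w') =
      (if (fun j => c (J j)) = χ then 1 else 0) * (T.Q w (J j) • t (Function.update J j w')) := by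
    intro w w' j hw
    by_cases hq : T.Q w (J j) = 0
    · rw [hq, zero_smul, zero_smul, mul_zero]
    · have h2 : c w' = c (J j) := by
        rw [← hw]
        by_contra h
        exact hq (hQ _ _ h)
      have h3 : (fun j' => c (Function.update J j w' j')) = fun j' => c (J j') := by
        funext j'
        by_cases hj : j' = j
        · subst hj
          rw [Function.update_self, h2]
        · rw [Function.update_of_ne hj]
      unfold patt
      rw [h3]
      split_ifs
      · rw [one_mul]
      · rw [zero_mul, smul_zero]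
  have h2 := ht u v huv J
  have h3 : ∀ j, T.Q v (J j) • patt c t χ (Function.update J j u) -
      (((1 : ℤ) : ℚ) * T.Q u (J j)) • patt c t χ (Function.update J j v) =
      (if (fun j => c (J j)) = χ then 1 else 0) * (T.Q v (J j) • t (Function.update J j u) -
      (((1 : ℤ) : ℚ) * T.Q u (J j)) • t (Function.update J j v)) := by
    intro j
    rw [Int.cast_one, one_mul, h1 v u j huv.symm, h1 u v j huv, mul_sub]
  rw [Finset.sum_congr rfl fun j _ => h3 j, ← Finset.mul_sum, h2, mul_zero]

/-- **Invariants of products of orthogonal Lie algebras and reflections.** -/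
theorem pairs_of_inv (T : HS n) (c : Fin n → Fin r) (hd : ∀ a b, a ≠ b → T.Q a b = 0)
    {b₀ : Fin r → Fin n} (hb₀ : ∀ i, c (b₀ i) = i) {t : (Fin k → Fin n) → ℚ}
    (ht : ∀ Z : Matrix (Fin n) (Fin n) ℂ, Zᵀ * mC T.Q + mC T.Q * Z = 0 → BD c Z → Kil Z t)
    (hp : ∀ i J, Odd (univ.filter fun j => J j = b₀ i).card → t J = 0) : t ∈ T.pairs2 c k := by
  have hQ : BD c T.Q := fun a b h => hd a b fun h' => h (by rw [h'])
  have hsym : ∀ a b, T.Q a b = T.Q b a := fun a b => by
    have := congrFun (congrFun T.symm b) a
    rw [Matrix.transpose_apply] at this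
    exact this
  have hu : IsUnit T.Q.det := isUnit_iff_ne_zero.2 (det_ne T)
  rw [patt_sum c t]
  refine Submodule.sum_mem _ fun χ _ => ?_
  refine gen_pairs T c hQ χ ?_
  refine offtM (K := ℚ) (κ := c) (Q := T.Q) (R := T.Q⁻¹) hsym hd (Matrix.mul_nonsing_inv _ hu) hb₀ k
    (Fin k) χ (patt c t χ) (Fintype.card_fin k) ?_ (patt_inv T c hQ (kil_inv T c hQ ht) χ) ?_
  · intro J hJ
    unfold patt
    rw [if_neg]
    intro h
    exact hJ fun j => congrFun h j
  · rw [mem_parM]
    intro i J hJ
    unfold patt
    split_ifs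
    · exact hp i J hJ
    · rfl

/-- The classes on the product of surfaces whose parts in the tensor powers of the `T_i` are products of
pairings. -/
theorem alg_of_pairs (T : HS n) (c : Fin n → Fin r) (d : Fin s → Fin r) (hQ : BD c T.Q)
    (a : Fin m → Fin r) (t : (Fin m → Fin s ⊕ Fin n) → ℚ)
    (hcol : ∀ J, t J ≠ 0 → ∀ j, Sum.elim d c (J j) = a j)
    (H : ∀ q : Fin m → Option (Fin s), (fun K => t (mk q K)) ∈ T.pairs2 c (A q).card) :
    t ∈ T.algP c d a := by
  have hpt : prj c d a t = t := by
    funext J
    rw [prj_apply]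
    split_ifs with hJ
    · rfl
    · by_contra hne
      exact hJ (hcol J (fun h => hne h.symm))
  rw [← hpt, t_eq t, map_sum]
  refine Submodule.sum_mem _ fun q _ => ?_
  refine Submodule.span_induction (p := fun u _ => prj c d a (Φ q u) ∈ T.algP c d a)
    ?_ ?_ ?_ ?_ (H q)
  · rintro u ⟨σ, κ, h2, h3, h4⟩
    exact gen_mem T c d hQ a q σ κ h2 h3 u h4
  · rw [map_zero, map_zero]
    exact Submodule.zero_mem _
  · intro u u' _ _ h2 h3
    rw [map_add, map_add]
    exact Submodule.add_mem _ h2 h3
  · intro x u _ h2
    rw [map_smul, map_smul]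
    exact Submodule.smul_mem _ _ h2

/-- Multi-indices with a given pattern. -/
theorem card_mk (q : Fin m → Option (Fin s)) (K : Fin (A q).card → Fin n) (p : Fin n) :
    (univ.filter fun j => mk q K j = Sum.inr p).card = (univ.filter fun i => K i = p).card := by
  symm
  refine Finset.card_bij (fun i _ => (ee q i : Fin m)) ?_ ?_ ?_
  · intro i hi
    rw [Finset.mem_filter] at hi ⊢
    exact ⟨Finset.mem_univ _, by rw [mk_ee, hi.2]⟩
  · intro i _ i' _ h
    exact (ee q).injective (Subtype.ext h)
  · intro j hj
    rw [Finset.mem_filter] at hj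
    cases hq : q j with
    | some b =>
      rw [mk_some K hq] at hj
      exact absurd hj.2 (by simp)
    | none =>
      obtain ⟨i, rfl⟩ := exists_ee hq
      refine ⟨i, ?_, rfl⟩
      rw [Finset.mem_filter]
      refine ⟨Finset.mem_univ _, ?_⟩
      have := hj.2
      rw [mk_ee] at this
      exact Sum.inr_injective this

end

end Pool.Agent.U228.VR
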