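import Pool.Agent.U228.VR.Defs
import Pool.Agent.U228.VR.Pairs

/-!
# Families of surfaces with nodes, and categories: proofs
-/

set_option autoImplicit false
set_option linter.unusedSectionVars false

open Finset Module Matrix

namespace Pool.Agent.U228.VR

open Pool.Agent.W544.PG Pool.Agent.TH164.HC Pool.Agent.U228.KP Pool.Agent.U228.GP
  Pool.Agent.U228.VH
open Pool.Agent.W74.PG Pool.Agent.W565.K3.Ext

noncomputable section

variable {n r s v m : ℕ} {B : Type}

/-- the signs of the reflection -/
def sgn1 (p : Fin n) : Fin n → ℚ := fun q => if q = p then -1 else 1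

def sgn (s : ℕ) (p : Fin n) : Fin s ⊕ Fin n → ℚ := Sum.elim (fun _ => 1) (sgn1 p)

theorem sgn1_sq (p q : Fin n) : sgn1 p q * sgn1 p q = 1 := by
  unfold sgn1
  split_ifs <;> norm_num

theorem sgn_sq (p : Fin n) (x : Fin s ⊕ Fin n) : sgn s p x * sgn s p x = 1 := by
  rcases x with x | x
  · exact one_mul 1
  · exact sgn1_sq p x

theorem ext1_refl (p : Fin n) : ext1 s (refl p) = diagonal (sgn s p) := by
  unfold ext1 refl
  rw [← diagonal_one, fromBlocks_diagonal]
  rfl

theorem pull_diag {κ : Type} [Fintype κ] [DecidableEq κ] (δ : κ → ℚ) (f : (Fin m → κ) → ℚ)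
    (J : Fin m → κ) : pull (diagonal δ) f J = (∏ j, δ (J j)) * f J := by
  unfold pull
  rw [Finset.sum_eq_single J]
  · congr 1
    refine Finset.prod_congr rfl fun j _ => ?_
    rw [diagonal_apply_eq]
  · intro K _ hK
    obtain ⟨j, hj⟩ : ∃ j, K j ≠ J j := by
      by_contra h
      push Not at h
      exact hK (funext h)
    rw [Finset.prod_eq_zero (Finset.mem_univ j), zero_mul]
    exact diagonal_apply_ne _ hj
  · intro h
    exact absurd (Finset.mem_univ _) h

/-- the sign of a multi-index -/
def sg0 (s : ℕ) (p : Fin n) (J : Fin m → Fin s ⊕ Fin n) : ℚ := ∏ j, sgn s p (J j)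

theorem sg0_eq (p : Fin n) (J : Fin m → Fin s ⊕ Fin n) :
    sg0 s p J = (-1) ^ (univ.filter fun j => J j = Sum.inr p).card := by
  unfold sg0
  have h1 : ∀ j, sgn s p (J j) = if J j = Sum.inr p then (-1 : ℚ) else 1 := by
    intro j
    rcases h : J j with x | x
    · rw [if_neg (by simp)]
      rfl
    · unfold sgn sgn1
      simp
  rw [Finset.prod_congr rfl fun j _ => h1 j, Finset.prod_ite, Finset.prod_const_one, mul_one,
    Finset.prod_const]

theorem sg0_update (p : Fin n) (J : Fin m → Fin s ⊕ Fin n) (j : Fin m) (l : Fin s ⊕ Fin n) :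
    sg0 s p (Function.update J j l) * sg0 s p J = sgn s p l * sgn s p (J j) := by
  have h1 : sg0 s p (Function.update J j l) = sgn s p l * ∏ i ∈ univ.erase j, sgn s p (J i) := by
    unfold sg0
    rw [← Finset.mul_prod_erase _ _ (Finset.mem_univ j), Function.update_self]
    congr 1
    refine Finset.prod_congr rfl fun i hi => ?_
    rw [Function.update_of_ne (Finset.ne_of_mem_erase hi)]
  have h2 : sg0 s p J = sgn s p (J j) * ∏ i ∈ univ.erase j, sgn s p (J i) := by
    unfold sg0
    rw [← Finset.mul_prod_erase _ _ (Finset.mem_univ j)]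
  have h3 : (∏ i ∈ univ.erase j, sgn s p (J i)) * (∏ i ∈ univ.erase j, sgn s p (J i)) = 1 := by
    rw [← Finset.prod_mul_distrib]
    exact Finset.prod_eq_one fun i _ => sgn_sq p _
  rw [h1, h2]
  linear_combination (sgn s p l * sgn s p (J j)) * h3

variable {F : Fam n r s v B} {a : Fin m → Fin r} {t : (Fin m → Fin s ⊕ Fin n) → Fin v → ℚ}

/-- Global sections are invariant under the reflection. -/
theorem IsGlobal.sign (ht : IsGlobal F a t) {p : Fin n} (hp : (refl p, 1) ∈ F.mon)
    (J : Fin m → Fin s ⊕ Fin n) (e : Fin v) : sg0 s p J * t J e = t J e := by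
  have h1 := congrFun (ht.glob _ hp J) e
  rw [Matrix.one_mulVec] at h1
  change pull (ext1 s (refl p)) (fun K => t K e) J = t J e at h1
  rw [ext1_refl, pull_diag] at h1
  exact h1

theorem IsGlobal.odd (ht : IsGlobal F a t) {p : Fin n} (hp : (refl p, 1) ∈ F.mon)
    (J : Fin m → Fin s ⊕ Fin n) (e : Fin v)
    (hJ : Odd (univ.filter fun j => J j = Sum.inr p).card) : t J e = 0 := by
  have h1 := ht.sign hp J e
  rw [sg0_eq, hJ.neg_one_pow] at h1
  linarith

/-- conjugation with the reflection -/
def conjR (p : Fin n) (y : Matrix (Fin n) (Fin n) ℂ) : Matrix (Fin n) (Fin n) ℂ :=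
  Matrix.of fun i j => (sgn1 p i : ℂ) * y i j * (sgn1 p j : ℂ)

theorem conjR_apply (p : Fin n) (y : Matrix (Fin n) (Fin n) ℂ) (i j : Fin n) :
    conjR p y i j = (sgn1 p i : ℂ) * y i j * (sgn1 p j : ℂ) := rfl

theorem emb_conjR (p : Fin n) (y : Matrix (Fin n) (Fin n) ℂ) (i j : Fin s ⊕ Fin n) :
    emb s (conjR p y) i j = (sgn s p i : ℂ) * emb s y i j * (sgn s p j : ℂ) := by
  rcases i with i | i <;> rcases j with j | j <;> simp [emb, sgn, conjR]

theorem act_conjR (ht : IsGlobal F a t) {p : Fin n} (hp : (refl p, 1) ∈ F.mon)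
    (y : Matrix (Fin n) (Fin n) ℂ) (b : Fin v) (J : Fin m → Fin s ⊕ Fin n) :
    act (emb s (conjR p y)) (sl t b) J = (sg0 s p J : ℂ) * act (emb s y) (sl t b) J := by
  unfold act
  rw [Finset.mul_sum]
  refine Finset.sum_congr rfl fun j _ => ?_
  rw [Finset.mul_sum]
  refine Finset.sum_congr rfl fun l _ => ?_
  rw [emb_conjR]
  have h1 : ((sg0 s p (Function.update J j l) : ℚ) : ℂ) * (sg0 s p J : ℚ) =
      (sgn s p l : ℚ) * (sgn s p (J j) : ℚ) := by
    rw [← Rat.cast_mul, ← Rat.cast_mul, sg0_update]
  have h2 : ((sg0 s p (Function.update J j l) : ℚ) : ℂ) * sl t b (Function.update J j l) =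
      sl t b (Function.update J j l) := by
    have := ht.sign hp (Function.update J j l) b
    unfold sl cx
    exact_mod_cast congrArg (fun q : ℚ => (q : ℂ)) this
  linear_combination (emb s y l (J j) * sl t b (Function.update J j l)) * (-h1) +
    (emb s y l (J j) * (sg0 s p J : ℂ)) * h2

theorem conjR_mem (ho : ∀ p q, p ≠ q → F.Q p q = 0) (ht : IsGlobal F a t) {p : Fin n}
    (hp : (refl p, 1) ∈ F.mon) {y : Matrix (Fin n) (Fin n) ℂ} {z : Matrix (Fin v) (Fin v) ℂ}
    (h : (y, z) ∈ pairs F.Q F.c t) : (conjR p y, z) ∈ pairs F.Q F.c t := by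
  obtain ⟨⟨h1, h2⟩, h3⟩ := h
  refine ⟨⟨?_, fun i j hij => ?_⟩, fun b => ?_⟩
  · ext i j
    have h4 := congrFun (congrFun h1 i) j
    rw [Matrix.add_apply, Matrix.mul_apply, Matrix.mul_apply, Matrix.zero_apply] at h4 ⊢
    have e1 : ∀ f : Fin n → ℂ, ∑ l, f l * mC F.Q l j = f j * mC F.Q j j := by
      intro f
      refine Finset.sum_eq_single j (fun l _ hl => ?_) fun h => absurd (Finset.mem_univ _) h
      rw [mC, Matrix.map_apply, ho l j hl, Rat.cast_zero, mul_zero]
    have e2 : ∀ f : Fin n → ℂ, ∑ l, mC F.Q i l * f l = mC F.Q i i * f i := by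
      intro f
      refine Finset.sum_eq_single i (fun l _ hl => ?_) fun h => absurd (Finset.mem_univ _) h
      rw [mC, Matrix.map_apply, ho i l (Ne.symm hl), Rat.cast_zero, zero_mul]
    rw [e1, e2] at h4 ⊢
    simp only [Matrix.transpose_apply] at h4 ⊢
    rw [conjR_apply, conjR_apply]
    linear_combination ((sgn1 p i : ℂ) * (sgn1 p j : ℂ)) * h4
  · have h4 : y i j = 0 := h2 i j hij
    change conjR p y i j = 0
    rw [conjR_apply, h4, mul_zero, zero_mul]
  · funext J
    rw [act_conjR ht hp, h3 b, Finset.mul_sum]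
    refine Finset.sum_congr rfl fun b' _ => ?_
    have h4 : ((sg0 s p J : ℚ) : ℂ) * sl t b' J = sl t b' J := by
      have := ht.sign hp J b'
      unfold sl cx
      exact_mod_cast congrArg (fun q : ℚ => (q : ℂ)) this
    linear_combination (z b b') * h4

/-- The Hodge operator does not commute with the reflection. -/
theorem exists_entry {T : HS n} {c : Fin n → Fin r} {k : Fin r → ℕ} (hT : Full T c k)
    (ho : ∀ p q, p ≠ q → T.Q p q = 0) {p : Fin n} {i : Fin r} (hpi : c p = i) :
    ∃ a b, c a = i ∧ c b = i ∧ (T.x - conjR p T.x) a b ≠ 0 := by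
  by_contra hcon
  push Not at hcon
  have hQp : T.Q p p ≠ 0 := by
    intro h0
    apply det_ne T
    refine Matrix.det_eq_zero_of_row_eq_zero p fun q => ?_
    by_cases h : p = q
    · rw [← h]; exact h0
    · exact ho p q h
  -- the entries of the Hodge operator
  have hx : ∀ l, l ≠ p → T.x l p = 0 ∧ T.x p l = 0 := by
    intro l hl
    by_cases hc : c l = i
    · have h1 := hcon l p hc hpi
      have h2 := hcon p l hpi hc
      rw [Matrix.sub_apply, conjR_apply] at h1 h2
      unfold sgn1 at h1 h2
      rw [if_neg hl, if_pos rfl] at h1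
      rw [if_neg hl, if_pos rfl] at h2
      push_cast at h1 h2
      constructor
      · have h3 : (2 : ℂ) * T.x l p = 0 := by linear_combination h1
        exact (mul_eq_zero.1 h3).resolve_left two_ne_zero
      · have h3 : (2 : ℂ) * T.x p l = 0 := by linear_combination h2
        exact (mul_eq_zero.1 h3).resolve_left two_ne_zero
    · exact ⟨hT.bx l p (by rw [hpi]; exact hc), hT.bx p l (by rw [hpi]; exact Ne.symm hc)⟩
  -- the operators which respect the vector `e p`
  let h : Submodule ℂ (Matrix (Fin n) (Fin n) ℂ) :=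
    { carrier := {y | ∀ l, l ≠ p → y l p = 0 ∧ y p l = 0}
      zero_mem' := fun l _ => ⟨rfl, rfl⟩
      add_mem' := by
        intro y z hy hz l hl
        rw [Matrix.add_apply, Matrix.add_apply, (hy l hl).1, (hy l hl).2, (hz l hl).1, (hz l hl).2,
          add_zero]
        exact ⟨rfl, rfl⟩
      smul_mem' := by
        intro w y hy l hl
        rw [Matrix.smul_apply, Matrix.smul_apply, (hy l hl).1, (hy l hl).2, smul_zero]
        exact ⟨rfl, rfl⟩ }
  have hmul : ∀ y ∈ h, ∀ z ∈ h, y * z ∈ h := by
    intro y hy z hz l hl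
    constructor
    · rw [Matrix.mul_apply]
      refine Finset.sum_eq_zero fun q _ => ?_
      by_cases hq : q = p
      · rw [hq, (hy l hl).1, zero_mul]
      · rw [(hz q hq).1, mul_zero]
    · rw [Matrix.mul_apply]
      refine Finset.sum_eq_zero fun q _ => ?_
      by_cases hq : q = p
      · rw [hq, (hz l hl).2, mul_zero]
      · rw [(hy q hq).2, zero_mul]
  obtain ⟨u, hu, hup⟩ : ∃ u, c u = i ∧ u ≠ p := by
    by_contra hu
    push Not at hu
    have h1 : (univ.filter fun a => c a = i) ⊆ {p} := by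
      intro a ha
      rw [Finset.mem_filter] at ha
      rw [Finset.mem_singleton]
      exact hu a ha.2
    have h2 := Finset.card_le_card h1
    rw [hT.rank i, Finset.card_singleton] at h2
    have h3 := hT.three i
    omega
  let Z : Matrix (Fin n) (Fin n) ℂ := Matrix.of fun l x =>
    (if l = u then (T.Q p x : ℂ) else 0) - (if l = p then (T.Q u x : ℂ) else 0)
  have hZa : ∀ l x, Z l x = (if l = u then (T.Q p x : ℂ) else 0) -
    (if l = p then (T.Q u x : ℂ) else 0) := fun _ _ => rfl
  have hsym : ∀ a b, T.Q a b = T.Q b a := fun a b => by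
    have := congrFun (congrFun T.symm b) a
    rw [Matrix.transpose_apply] at this
    exact this
  have h1 : Zᵀ * mC T.Q + mC T.Q * Z = 0 := by
    ext x z
    rw [Matrix.add_apply, Matrix.mul_apply, Matrix.mul_apply, Matrix.zero_apply]
    simp only [Matrix.transpose_apply, hZa, mC, Matrix.map_apply, sub_mul, mul_sub, ite_mul,
      mul_ite, zero_mul, mul_zero, Finset.sum_sub_distrib, Finset.sum_ite_eq',
      Finset.mem_univ, if_true]
    rw [hsym x u, hsym x p]
    ring
  have h2 : BD c Z := by
    intro l x hlx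
    rw [hZa]
    have e1 : (if l = u then (T.Q p x : ℂ) else 0) = 0 := by
      split_ifs with h
      · rw [hT.bQ p x, Rat.cast_zero]
        rw [hpi, ← hu, ← h]
        exact hlx
      · rfl
    have e2 : (if l = p then (T.Q u x : ℂ) else 0) = 0 := by
      split_ifs with h
      · rw [hT.bQ u x, Rat.cast_zero]
        rw [hu, ← hpi, ← h]
        exact hlx
      · rfl
    rw [e1, e2, sub_zero]
  have h3 : Z ∈ h := by
    refine hT.full h (fun y hy z hz => h.sub_mem (hmul y hy z hz) (hmul z hz y hy))
      (fun σ l hl => ?_) Z h1 h2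
    rw [Matrix.map_apply, Matrix.map_apply, (hx l hl).1, (hx l hl).2, map_zero]
    exact ⟨rfl, rfl⟩
  have h4 := (h3 u hup).1
  rw [hZa, if_pos rfl, if_neg hup, sub_zero] at h4
  exact hQp (by exact_mod_cast h4)

/-- **Separation of the variables for flat Hodge classes.** -/
theorem separate (b₀ : B) (hN : Nodal F b₀) (ht : IsGlobal F a t) :
    (∀ e, (fun J => t J e) ∈ algQ F.Q F.c F.d a) ∧ ∀ b J, t J ∈ (F.V b).Hdg := by
  obtain ⟨k, hT⟩ := hN.full
  choose p hp hpm using hN.node
  have ho : ∀ p q, p ≠ q → (F.T b₀).Q p q = 0 := by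
    rw [F.form b₀]
    exact hN.orth
  have hmem : ∀ Z : Matrix (Fin n) (Fin n) ℂ, Zᵀ * mC F.Q + mC F.Q * Z = 0 → BD F.c Z →
      Z ∈ Nt F.Q F.c t := by
    rw [← F.form b₀]
    refine full_mem hT _ (fun y hy => hy.1) (fun σ y hy => ?_) fun i => ?_
    · refine Nt_norm (skew_map (F.T b₀).skew σ) ?_ (hodge_map (ht.hodge b₀) σ) hy
      exact hT.bx.map (map_zero σ)
    · obtain ⟨l, l', hl, hl', hne⟩ := exists_entry hT ho (hp i)
      refine ⟨_, ?_, l, l', hl, hl', hne⟩
      have h1 := pairs_mem ht.hodge b₀ (RingEquiv.refl ℂ)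
      have h3 : ∀ {l : ℕ} (A : Matrix (Fin l) (Fin l) ℂ), A.map (RingEquiv.refl ℂ) = A :=
        fun A => by ext; rfl
      rw [h3, h3] at h1
      have h2 := (pairs F.Q F.c t).sub_mem h1 (conjR_mem hN.orth ht (hpm i) h1)
      rw [Prod.mk_sub_mk, sub_self] at h2
      have h4 := pairs_alone h2
      rw [← F.form b₀] at h4
      exact h4
  have hx : ∀ b, (F.T b).x ∈ Nt F.Q F.c t := by
    intro b
    refine hmem _ ?_ (F.block b)
    rw [← F.form b]
    exact (F.T b).skew
  constructor
  · intro e
    have h1 : (F.T b₀).IsHodgeS fun J => t J e := by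
      intro u l hu hl
      have h2 : W143.PG.aN ((F.T b₀).xS s) (cx fun J => t J e) = 0 := (hx b₀).2 e
      exact W143.PG.killed h2 u (fun j => (l j : ℂ)) hu (by
        intro h3
        apply hl
        exact_mod_cast h3)
    have hh : ∀ Z : Matrix (Fin n) (Fin n) ℂ, Zᵀ * mC (F.T b₀).Q + mC (F.T b₀).Q * Z = 0 →
        BD F.c Z → Z ∈ (F.T b₀).hT :=
      hT.full (F.T b₀).hT (fun y hy z hz => hT_lie (F.T b₀) W101.PG.lie hy hz)
        (fun σ => W131.PG.gal W101.PG.hk n (F.T b₀) σ)
    have h2 : (fun J => t J e) ∈ (F.T b₀).algP F.c F.d a := by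
      refine alg_of_pairs (F.T b₀) F.c F.d hT.bQ a _ (fun J hJ => ht.surf J e hJ) fun q => ?_
      refine pairs_of_inv (F.T b₀) F.c ho (b₀ := p) hp (fun Z hZ hZc =>
        ((mem_hT (F.T b₀) Z).1 (hh Z hZ hZc)).2 _ _ (hodge_slice (F.T b₀) _ h1 q)) ?_
      intro i K hK
      exact ht.odd (hpm i) _ e (by rw [card_mk]; exact hK)
    rw [algP_eq, F.form b₀] at h2
    exact h2
  · intro b J
    change (F.V b).z *ᵥ cV (t J) = 0
    rw [op_eq t (ht.hodge b) J]
    funext e
    exact congrFun ((hx b).2 e) J

/-- The push-forwards of a global section are global sections. -/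
theorem contr_flat' (b₀ : B) (ht : IsGlobal F a t) (hH : ∀ b J, t J ∈ (F.V b).Hdg)
    {β : (Fin m → Fin s ⊕ Fin n) → ℚ} (hβ : β ∈ algQ F.Q F.c F.d a) :
    contr F.Q F.ρ β t ∈ F.flat := by
  constructor
  · intro g hg
    obtain ⟨h1, h2⟩ := F.isom g hg
    have h3 : pull (ext1 s g.1) β = β := by
      refine algP_fixed (F.T b₀) F.c F.d a ?_ h2 ?_
      · rw [F.form b₀]; exact h1
      · rw [algP_eq, F.form b₀]; exact hβ
    have h4 : ∀ e, inter F.Q F.ρ β (pull (ext1 s g.1) fun J => t J e) =
        inter F.Q F.ρ β fun J => t J e := by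
      intro e
      have h5 := inter_pull (F.T b₀) F.ρ (g := g.1) (by rw [F.form b₀]; exact h1) β
        fun J => t J e
      rw [h3, F.form b₀] at h5
      exact h5
    funext e
    have h6 : (fun J => t J e) = ∑ e', g.2 e e' • pull (ext1 s g.1) fun J => t J e' := by
      funext J
      have h7 := congrFun (ht.glob g hg J) e
      rw [← h7, Finset.sum_apply]
      rfl
    change ∑ e', g.2 e e' * contr F.Q F.ρ β t e' = inter F.Q F.ρ β fun J => t J e
    have h8 : (inter F.Q F.ρ β fun J => t J e) = interL F.Q F.ρ β fun J => t J e := rfl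
    rw [h8, h6, map_sum]
    refine Finset.sum_congr rfl fun e' _ => ?_
    rw [map_smul, smul_eq_mul, interL_apply, h4]
    rfl
  · intro b
    have h1 : contr F.Q F.ρ β t =
        ∑ J, ∑ K, (β J * ∏ j, ifm F.Q F.ρ (J j) (K j)) • t K := by
      funext e
      rw [Finset.sum_apply]
      refine Finset.sum_congr rfl fun J _ => ?_
      rw [Finset.sum_apply]
      rfl
    rw [h1]
    exact Submodule.sum_mem _ fun J _ => Submodule.sum_mem _ fun K _ =>
      Submodule.smul_mem _ _ (hH b K)

/-- **Flat Hodge classes.** -/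
theorem global_mem (b₀ : B) (hN : Nodal F b₀) (ht : IsGlobal F a t) :
    t ∈ products (algQ F.Q F.c F.d a) F.flat := by
  obtain ⟨h1, h2⟩ := separate b₀ hN ht
  obtain ⟨k, hT⟩ := hN.full
  have h3 := rebuild (F.T b₀) hT.bx F.d a F.ρ_ne t (by
    intro e
    rw [algP_eq, F.form b₀]
    exact h1 e) F.flat (by
    intro β hβ
    rw [algP_eq, F.form b₀] at hβ
    rw [F.form b₀]
    exact contr_flat' b₀ ht h2 hβ)
  rw [algP_eq, F.form b₀] at h3
  exact h3

/-- The classes in `algQ` are supported on the multi-indices which belong to the surfaces. -/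
theorem algQ_surf (ho : ∀ p q, p ≠ q → F.Q p q = 0) {α : (Fin m → Fin s ⊕ Fin n) → ℚ}
    (hα : α ∈ algQ F.Q F.c F.d a) (J : Fin m → Fin s ⊕ Fin n) (hJ : α J ≠ 0) (j : Fin m) :
    Sum.elim F.d F.c (J j) = a j := by
  by_contra hne
  apply hJ
  induction hα using Submodule.span_induction with
  | mem f hf =>
    obtain ⟨σ, ν, h1, h2, h3, h4⟩ := hf
    rw [h4]
    by_cases hj : σ j = j
    · rw [Finset.prod_eq_zero (i := j), zero_mul]
      · rw [Finset.mem_filter]
        exact ⟨Finset.mem_univ _, hj⟩
      · rcases hJj : J j with l | l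
        · by_contra h5
          apply hne
          rw [hJj]
          exact h3 j l h5
        · rfl
    · rw [mul_eq_zero]
      right
      rcases lt_or_gt_of_ne hj with h5 | h5
      · refine Finset.prod_eq_zero (i := σ j) ?_ ?_
        · rw [Finset.mem_filter, h1]
          exact ⟨Finset.mem_univ _, h5⟩
        · split_ifs with h6
          · rw [h1]
            rcases hJs : J (σ j) with l | l
            · rcases J j with l' | l' <;> rfl
            · rcases hJj : J j with l' | l'
              · rfl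
              · rw [hJs, Sum.elim_inr, h2] at h6
                rw [hJj, Sum.elim_inr] at hne
                change F.Q l l' = 0
                refine ho l l' fun h7 => hne ?_
                rw [← h7, h6]
          · rfl
      · refine Finset.prod_eq_zero (i := j) ?_ ?_
        · rw [Finset.mem_filter]
          exact ⟨Finset.mem_univ _, h5⟩
        · rw [if_neg hne]
  | zero => rfl
  | add f g _ _ hf hg => 
    by_cases h1 : f J = 0
    · by_cases h2 : g J = 0
      · rw [Pi.add_apply, h1, h2, add_zero]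
      · exact absurd (hg h2) h2
    · exact absurd (hf h1) h1
  | smul q f _ hf =>
    by_cases h1 : f J = 0
    · rw [Pi.smul_apply, h1, smul_zero]
    · exact absurd (hf h1) h1

/-- Products are global sections. -/
theorem products_global (b₀ : B) (hN : Nodal F b₀)
    (ht : t ∈ products (algQ F.Q F.c F.d a) F.flat) : IsGlobal F a t := by
  refine ⟨?_, fun g hg => ?_, fun b => ?_⟩
  · induction ht using Submodule.span_induction with
    | mem f hf =>
      obtain ⟨α, hα, x, hx, rfl⟩ := hf
      intro J e hJ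
      exact algQ_surf hN.orth hα J (left_ne_zero_of_mul hJ)
    | zero => exact fun J e h => absurd rfl h
    | add f g _ _ hf hg =>
      intro J e hJ
      by_cases h1 : f J e = 0
      · by_cases h2 : g J e = 0
        · exact absurd (by rw [Pi.add_apply, Pi.add_apply, h1, h2, add_zero]) hJ
        · exact hg J e h2
      · exact hf J e h1
    | smul q f _ hf =>
      intro J e hJ
      exact hf J e (right_ne_zero_of_mul hJ)
  · obtain ⟨h1, h2⟩ := F.isom g hg
    induction ht using Submodule.span_induction with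
    | mem f hf =>
      obtain ⟨α, hα, x, hx, rfl⟩ := hf
      intro J
      have h3 : pull (ext1 s g.1) α = α := by
        refine algP_fixed (F.T b₀) F.c F.d a ?_ h2 ?_
        · rw [F.form b₀]; exact h1
        · rw [algP_eq, F.form b₀]; exact hα
      have h4 : (fun l => pull (ext1 s g.1) (fun K => α K * x l) J) = α J • x := by
        funext l
        rw [Pi.smul_apply, smul_eq_mul]
        conv_rhs => rw [← h3]
        unfold pull
        rw [Finset.sum_mul]
        refine Finset.sum_congr rfl fun K _ => ?_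
        ring
      rw [h4, Matrix.mulVec_smul, hx.1 g hg]
      rfl
    | zero =>
      intro J
      have h4 : (fun e => pull (ext1 s g.1) (fun K => (0 : (Fin m → Fin s ⊕ Fin n) → Fin v → ℚ) K e)
          J) = 0 := by
        funext e
        unfold pull
        exact Finset.sum_eq_zero fun K _ => mul_zero _
      rw [h4, Matrix.mulVec_zero]
      rfl
    | add f f' _ _ hf hg' =>
      intro J
      have h4 : (fun e => pull (ext1 s g.1) (fun K => (f + f') K e) J) =
          (fun e => pull (ext1 s g.1) (fun K => f K e) J) +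
            fun e => pull (ext1 s g.1) (fun K => f' K e) J := by
        funext e
        rw [Pi.add_apply]
        unfold pull
        rw [← Finset.sum_add_distrib]
        exact Finset.sum_congr rfl fun K _ => mul_add _ (f K e) (f' K e)
      rw [h4, Matrix.mulVec_add, hf J, hg' J]
      rfl
    | smul q f _ hf =>
      intro J
      have h4 : (fun e => pull (ext1 s g.1) (fun K => (q • f) K e) J) =
          q • fun e => pull (ext1 s g.1) (fun K => f K e) J := by
        funext e
        rw [Pi.smul_apply]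
        unfold pull
        rw [Finset.smul_sum]
        exact Finset.sum_congr rfl fun K _ => mul_left_comm _ q (f K e)
      rw [h4, Matrix.mulVec_smul, hf J]
      rfl
  · refine products_hodge (F.block b) F.d a _ ?_
    have h1 : F.flat ≤ (F.V b).Hdg := fun x hx => hx.2 b
    have h2 : products (algQ F.Q F.c F.d a) F.flat ≤ products (algQ F.Q F.c F.d a) (F.V b).Hdg := by
      refine Submodule.span_mono ?_
      rintro f ⟨α, hα, x, hx, rfl⟩
      exact ⟨α, hα, x, h1 hx, rfl⟩
    rw [algP_eq, F.form b]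
    exact h2 ht

/-- **The variational Hodge conjecture.** -/
theorem variational (b₀ : B) (hN : Nodal F b₀) (𝒜 : Classes F)
    (h : 𝒜.VHC) (a : Fin m → Fin r) : Variational 𝒜 a := by
  intro t ht b hb b'
  obtain ⟨h1, h2⟩ := separate b₀ hN ht
  obtain ⟨k, hT⟩ := hN.full
  have h3 := rebuild (F.T b₀) hT.bx F.d a F.ρ_ne t (by
    intro e
    rw [algP_eq, F.form b₀]
    exact h1 e) (F.flat ⊓ 𝒜.Z b) (by
    intro β hβ
    rw [algP_eq, F.form b₀] at hβ
    rw [F.form b₀]
    exact ⟨contr_flat' b₀ ht h2 hβ, 𝒜.push a b β hβ t hb⟩)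
  rw [algP_eq, F.form b₀] at h3
  have h4 : products (algQ F.Q F.c F.d a) (F.flat ⊓ 𝒜.Z b) ≤ 𝒜.X a b' := by
    unfold products
    rw [Submodule.span_le]
    rintro f ⟨α, hα, x, ⟨hx1, hx2⟩, rfl⟩
    exact 𝒜.mul a b' α hα x (h x hx1 b hx2 b')
  exact h4 h3

/-- **The converse.** -/
theorem variational_conv (b₀ : B) (hN : Nodal F b₀) (𝒜 : Classes F) (a : Fin m → Fin r)
    (h : Variational 𝒜 a) : 𝒜.VHC := by
  intro x hx b hb b'
  obtain ⟨k, hT⟩ := hN.full
  choose e he using fun j => F.surj (a j)
  have hα : algOne e ∈ algQ F.Q F.c F.d a := algOne_mem F.Q F.c F.d a e he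
  have h0 : (algOne e : (Fin m → Fin s ⊕ Fin n) → ℚ) ≠ 0 := by
    intro h1
    have h2 := algOne_apply (n := n) e
    rw [h1] at h2
    exact zero_ne_one h2
  have hs : IsGlobal F a (fun J l => algOne e J * x l) :=
    products_global b₀ hN (Submodule.subset_span ⟨algOne e, hα, x, hx, rfl⟩)
  have h1 : (fun J l => algOne e J * x l) ∈ 𝒜.X a b' :=
    h _ hs b (𝒜.mul a b (algOne e) hα x hb) b'
  obtain ⟨β, hβ, hne⟩ := inter_nondeg (F.T b₀) hT.bx F.d a F.ρ_ne
    (α := algOne e) (by rw [algP_eq, F.form b₀]; exact hα) h0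
  rw [algP_eq, F.form b₀] at hβ
  rw [F.form b₀] at hne
  have h2 := 𝒜.push a b' β hβ _ h1
  have h3 : contr F.Q F.ρ β (fun J l => algOne e J * x l) =
      inter F.Q F.ρ β (algOne e) • x := by
    funext l
    change inter F.Q F.ρ β (fun J => algOne e J * x l) = _
    rw [Pi.smul_apply, smul_eq_mul]
    unfold inter
    simp only [Finset.sum_mul]
    refine Finset.sum_congr rfl fun J _ => Finset.sum_congr rfl fun K _ => ?_
    ring
  rw [h3] at h2
  have h4 := Submodule.smul_mem _ (inter F.Q F.ρ β (algOne e))⁻¹ h2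
  rwa [smul_smul, inv_mul_cancel₀ hne, one_smul] at h4

end

end Pool.Agent.U228.VR
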