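import Pool.Agent.U228.LF.Offt

/-!
# The first fundamental theorem for products of orthogonal groups, without a bound on the number of
variables
-/

set_option linter.unusedSectionVars false

open Finset Function

namespace Pool.Agent.U228.VR

open Pool.Agent.TH125.Nod Pool.Agent.U228.LF

universe u v

variable {K : Type u} [Field K] {B : Type} [Fintype B] [DecidableEq B] {ι : Type} [DecidableEq ι]
  {M : Type v} [AddCommGroup M] [Module K M]

variable {S : Type} [Fintype S] [DecidableEq S]

/-- The forms which are invariant under the reflections in the basis vectors `b₀ i`. -/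
def parM (K : Type u) [Field K] (M : Type v) [AddCommGroup M] [Module K M] (S : Type) [Fintype S]
    (b₀ : ι → B) : Submodule K ((S → B) → M) := ⨅ i, par K M S (b₀ i)

theorem mem_parM {b₀ : ι → B} {f : (S → B) → M} :
    f ∈ parM K M S b₀ ↔ ∀ i, f ∈ par K M S (b₀ i) := by
  unfold parM
  rw [Submodule.mem_iInf]

theorem rho_parM {b₀ : ι → B} {f : (S → B) → M} (hf : f ∈ parM K M S b₀) (σ : Equiv.Perm S) :
    rho (K := K) σ f ∈ parM K M S b₀ :=
  mem_parM.2 fun i => rho_par (mem_parM.1 hf i) σ

variable {κ : B → ι} {c : S → ι} {i : ι}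

/-- As many variables as the dimension. -/
theorem top_sumM [CharZero K] {b₀ : B} (hb₀ : κ b₀ = i) {A : Finset S}
    (hA : A = univ.filter (c · = i)) (hcard : A.card = (univ.filter fun b => κ b = i).card)
    {w : (S → B) → M} (hw : w ∈ par K M S b₀) (hsup : Sup κ c w) :
    ∑ σ : Equiv.Perm {x // x ∈ A}, ((Equiv.Perm.sign σ : ℤ) : K) •
      rho (K := K) (Equiv.Perm.ofSubtype σ) w = 0 := by
  have hAi : ∀ x, x ∈ A ↔ c x = i := fun x => by simp [hA]
  have hcσ : ∀ (σ : Equiv.Perm {x // x ∈ A}) (j : S), c (Equiv.Perm.ofSubtype σ j) = c j := by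
    intro σ j
    by_cases hj : j ∈ A
    · rw [Equiv.Perm.ofSubtype_apply_of_mem σ hj, (hAi j).1 hj]
      exact (hAi _).1 (σ ⟨j, hj⟩).2
    · rw [Equiv.Perm.ofSubtype_apply_of_not_mem σ hj]
  funext J
  rw [Finset.sum_apply]
  simp only [Pi.smul_apply, Pi.zero_apply]
  by_cases hJc : ∀ j, κ (J j) = c j
  swap
  · refine Finset.sum_eq_zero fun σ _ => ?_
    rw [Sup_rho (K := K) (hcσ σ) hsup J hJc, smul_zero]
  by_cases hJ : Set.InjOn J (A : Set S)
  · refine Finset.sum_eq_zero fun σ _ => ?_
    have h1 : A.image J = univ.filter fun b => κ b = i := by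
      refine Finset.eq_of_subset_of_card_le ?_ ?_
      · intro b hb
        obtain ⟨x, hx, rfl⟩ := Finset.mem_image.1 hb
        rw [Finset.mem_filter, hJc x]
        exact ⟨Finset.mem_univ _, (hAi x).1 hx⟩
      · rw [Finset.card_image_of_injOn hJ, hcard]
    obtain ⟨j₀, hj₀A, hj₀⟩ : ∃ j₀ ∈ A, J j₀ = b₀ := by
      have h2 : b₀ ∈ A.image J := by
        rw [h1, Finset.mem_filter]
        exact ⟨Finset.mem_univ _, hb₀⟩
      exact Finset.mem_image.1 h2
    have h2 : (univ.filter fun j => J j = b₀) = {j₀} := by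
      ext j
      rw [Finset.mem_filter, Finset.mem_singleton]
      constructor
      · rintro ⟨-, h⟩
        have hjA : j ∈ A := by
          rw [hAi, ← hJc j, h, hb₀]
        exact hJ hjA hj₀A (h.trans hj₀.symm)
      · rintro rfl
        exact ⟨Finset.mem_univ _, hj₀⟩
    rw [rho_par (K := K) hw (Equiv.Perm.ofSubtype σ) J (by rw [h2]; exact odd_one), smul_zero]
  · obtain ⟨x, hx, y, hy, hJxy, hxy⟩ : ∃ x, ∃ _ : x ∈ A, ∃ y, ∃ _ : y ∈ A, J x = J y ∧ x ≠ y := by
      unfold Set.InjOn at hJ
      push Not at hJ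
      obtain ⟨x, hx, y, hy, h1, h2⟩ := hJ
      exact ⟨x, hx, y, hy, h1, h2⟩
    refine Finset.sum_involution (fun σ _ => Equiv.swap ⟨x, hx⟩ ⟨y, hy⟩ * σ) ?_ ?_ ?_ ?_
    · intro σ _
      have hs : Equiv.Perm.sign (Equiv.swap (⟨x, hx⟩ : {x // x ∈ A}) ⟨y, hy⟩) = -1 :=
        Equiv.Perm.sign_swap (fun h => hxy (congrArg Subtype.val h))
      have h0 : rho (K := K) (Equiv.Perm.ofSubtype (Equiv.swap ⟨x, hx⟩ ⟨y, hy⟩ * σ)) w J =
          rho (K := K) (Equiv.Perm.ofSubtype σ) w J := by
        rw [map_mul, rho_mul, Equiv.Perm.ofSubtype_swap_eq]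
        show rho (K := K) (Equiv.Perm.ofSubtype σ) w (fun j => J (Equiv.swap x y j)) = _
        have hJ' : (fun j => J (Equiv.swap x y j)) = J := by
          funext j
          by_cases h1 : j = x
          · rw [h1, Equiv.swap_apply_left, hJxy]
          by_cases h2 : j = y
          · rw [h2, Equiv.swap_apply_right, hJxy]
          rw [Equiv.swap_apply_of_ne_of_ne h1 h2]
        rw [hJ']
      rw [h0, Equiv.Perm.sign_mul, hs]
      push_cast
      module
    · intro σ _ _ h
      have h1 : Equiv.swap (⟨x, hx⟩ : {x // x ∈ A}) ⟨y, hy⟩ = 1 := by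
        rwa [mul_eq_right] at h
      rw [Equiv.Perm.one_def, Equiv.swap_eq_refl_iff] at h1
      exact hxy (congrArg Subtype.val h1)
    · intro σ _
      exact Finset.mem_univ _
    · intro σ _
      rw [← mul_assoc, Equiv.swap_mul_self, one_mul]

variable {Q R : Matrix B B K}

/-- **The first fundamental theorem for products of orthogonal groups**: no condition on the number of
variables. -/
theorem offtM [CharZero K] (hQs : ∀ a b, Q a b = Q b a) (hd : ∀ a b, a ≠ b → Q a b = 0)
    (hQR : Q * R = 1) {b₀ : ι → B} (hb₀ : ∀ i, κ (b₀ i) = i) (N : ℕ) :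
    ∀ (S : Type) [Fintype S] [DecidableEq S] (c : S → ι)
    (f : (S → B) → M), Fintype.card S = N → Sup κ c f →
    Inv κ Q (fun _ => ((1 : ℤ) : K)) f → f ∈ parM K M S b₀ → f ∈ Gen κ Q c := by
  classical
  have hs : ∀ _ : ι, (1 : ℤ) = 1 ∨ (1 : ℤ) = -1 := fun _ => Or.inl rfl
  have hQb : ∀ a b : B, κ a ≠ κ b → Q a b = 0 := fun a b h => hd a b fun h' => h (by rw [h'])
  have hQs' : ∀ a b, Q a b = ((1 : ℤ) : K) * Q b a := fun a b => by
    rw [Int.cast_one, one_mul, hQs]
  induction N using Nat.strong_induction_on with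
  | _ N ih =>
    intro S _ _ c f hN hsup hinv hpar
    rcases isEmpty_or_nonempty S with hS | ⟨⟨a0⟩⟩
    · refine Submodule.subset_span ⟨0, Equiv.equivOfIsEmpty _ _, f (fun j => (hS.false j).elim), ?_⟩
      funext J
      unfold gen
      rw [if_pos (fun j => (hS.false j).elim), Finset.univ_eq_empty, Finset.prod_empty, one_smul]
      congr 1
      funext j
      exact (hS.false j).elim
    · set i := c a0 with hi
      refine alt_mem' (K := K) (κ := κ) (c := c) (i := i)
        (Gen κ Q c) (parM K M S b₀)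
        (fun a b ha hb f hf => rho_Gen (c_swap ha hb) hf)
        (fun a b _ _ f hf => rho_parM hf _) (blk κ i).card rfl
        (univ.filter (c · = i)) rfl 1 (Or.inr rfl) ?_
        ((blk κ i).card + 1) {a0} ?_ ⟨a0, by simp⟩ ?_ f hpar hsup
        ?_ ?_
      · intro hc w hw hws halt
        exact anti_mem (c := c) (i := i) _
          (fun a b ha hb f hf => rho_Gen (c_swap ha hb) hf)
          (fun a ha => (Finset.mem_filter.1 ha).2)
          (top_sumM (hb₀ i) rfl hc (mem_parM.1 hw i) hws) halt
      · intro x hx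
        rw [Finset.mem_singleton] at hx
        rw [hx]
        simp [hi]
      · rw [Finset.card_singleton]
        omega
      · intro a ha
        have hai : c a = i := (Finset.mem_filter.1 ha).2
        have hcon : ∀ b ∈ (univ.filter fun j => c j = i).erase a,
            con κ R i a b f ∈ Gen κ Q (fun x : {x // x ≠ a ∧ x ≠ b} => c x.1) := by
          intro b hb
          rw [Finset.mem_erase] at hb
          have hab : a ≠ b := Ne.symm hb.1
          refine ih (Fintype.card {x // x ≠ a ∧ x ≠ b}) ?_ _ _ _ rfl (sup_con hsup R)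
            (inv_con (s := fun _ => 1) hs hQb hQs' hQR hinv hab)
            (mem_parM.2 fun i' => con_par hd hQR (mem_parM.1 hpar i') hab _ _)
          rw [← hN]
          exact Fintype.card_subtype_lt (x := a) (fun h => h.1 rfl)
        have hsum : ((1 : ℤ) : K) • ∑ b ∈ (univ.filter fun j => c j = i).erase a,
            (fun J : S → B => if ∀ j, κ (J j) = c j then
              Q (J a) (J b) • con κ R i a b f (fun x => J x.1) else 0) ∈ Gen κ Q c := by
          refine Submodule.smul_mem _ _ (Submodule.sum_mem _ fun b hb => ?_)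
          exact mul_Gen κ Q c (Ne.symm (Finset.mem_erase.1 hb).1) (hcon b hb)
        convert hsum using 1
        funext J
        rw [Pi.add_apply, Pi.smul_apply, Finset.sum_apply, Pi.smul_apply, Finset.sum_apply]
        by_cases hJ : ∀ j, κ (J j) = c j
        · simp only [if_pos hJ]
          exact cas (s := fun _ => 1) hs hQb hQR hinv hJ hai
        · simp only [if_neg hJ, Finset.sum_const_zero, smul_zero]
          rw [hsup J hJ, smul_zero, zero_add]
          refine Finset.sum_eq_zero fun b hb => ?_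
          rw [Finset.mem_erase, Finset.mem_filter] at hb
          exact Sup_rho (K := K) (c_swap hai hb.2.2) hsup J hJ
      · intro a ha b hb hab
        rw [Finset.mem_singleton] at ha hb
        exact absurd (ha.trans hb.symm) hab

end Pool.Agent.U228.VR
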